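import Pool.Agent.H61.BRX.Stmts

set_option autoImplicit false

namespace Pool.STN

theorem win_asc (m i : ℕ) (h : ¬ dd m i) (h2 : 2 ≤ F^[i] m) :
    7 * F^[i] m ≤ 6 * F^[i + 1] m := by
  rw [Function.iterate_succ_apply']
  unfold dd at h
  generalize F^[i] m = x at *
  unfold F
  split_ifs <;> omega

theorem win_dsc (m i : ℕ) (h : dd m i) : 3 * F^[i + 1] m = 2 * F^[i] m := by
  rw [Function.iterate_succ_apply']
  unfold dd at h
  generalize F^[i] m = x at *
  unfold F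
  split_ifs
  omega

theorem win_up (m i : ℕ) (h2 : ∀ i, 2 ≤ F^[i] m) (n : ℕ) :
    (∀ t < n, ¬ dd m (i + t)) → 7 ^ n * F^[i] m ≤ 6 ^ n * F^[i + n] m := by
  induction n with
  | zero =>
    intro _
    simp
  | succ n ih =>
    intro h
    have h3 := ih (fun t ht => h t (by omega))
    have h4 := win_asc m (i + n) (h n (by omega)) (h2 _)
    have e : i + (n + 1) = i + n + 1 := by omega
    rw [e]
    calc 7 ^ (n + 1) * F^[i] m = 7 * (7 ^ n * F^[i] m) := by rw [pow_succ]; ring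
      _ ≤ 7 * (6 ^ n * F^[i + n] m) := Nat.mul_le_mul_left _ h3
      _ = 6 ^ n * (7 * F^[i + n] m) := by ring
      _ ≤ 6 ^ n * (6 * F^[i + n + 1] m) := Nat.mul_le_mul_left _ h4
      _ = 6 ^ (n + 1) * F^[i + n + 1] m := by rw [pow_succ]; ring

theorem win_dn (m i : ℕ) (n : ℕ) :
    (∀ t < n, dd m (i + t)) → 3 ^ n * F^[i + n] m = 2 ^ n * F^[i] m := by
  induction n with
  | zero =>
    intro _
    simp
  | succ n ih =>
    intro h
    have h3 := ih (fun t ht => h t (by omega))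
    have h4 := win_dsc m (i + n) (h n (by omega))
    have e : i + (n + 1) = i + n + 1 := by omega
    rw [e]
    calc 3 ^ (n + 1) * F^[i + n + 1] m = 3 ^ n * (3 * F^[i + n + 1] m) := by
          rw [pow_succ]; ring
      _ = 2 * (3 ^ n * F^[i + n] m) := by rw [h4]; ring
      _ = 2 ^ (n + 1) * F^[i] m := by rw [h3, pow_succ]; ring

theorem WIN_thm : WINStmt := by
  intro m B h2 hB i
  have h1 : ∃ t < 5 * B, dd m (i + t) := by
    by_contra hn
    push Not at hn
    have h3 := win_up m i h2 (5 * B) hn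
    have h4 := hB (i + 5 * B)
    have h5 := h2 i
    have h6 : 2 ^ B * 6 ^ (5 * B) ≤ 7 ^ (5 * B) := by
      rw [pow_mul, pow_mul, ← mul_pow]
      exact Nat.pow_le_pow_left (by norm_num) B
    have h7 : 0 < 2 ^ B * 6 ^ (5 * B) := by positivity
    have h8 : 2 ^ B * 6 ^ (5 * B) * 2 ≤ 7 ^ (5 * B) * F^[i] m := Nat.mul_le_mul h6 h5
    have h9 : 6 ^ (5 * B) * F^[i + 5 * B] m ≤ 6 ^ (5 * B) * 2 ^ B := Nat.mul_le_mul_left _ h4
    have h10 : 6 ^ (5 * B) * 2 ^ B = 2 ^ B * 6 ^ (5 * B) := mul_comm _ _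
    omega
  obtain ⟨t, ht, hd⟩ := h1
  have h11 : ∃ s < 2 * B, ¬ dd m (i + t + s) := by
    by_contra hn
    push Not at hn
    have h3 := win_dn m (i + t) (2 * B) hn
    have h4 := hB (i + t)
    have h5 := h2 (i + t + 2 * B)
    have h6 : 2 ^ (2 * B) * 2 ^ B ≤ 3 ^ (2 * B) := by
      rw [pow_mul, pow_mul, ← mul_pow]
      exact Nat.pow_le_pow_left (by norm_num) B
    have h7 : 0 < 2 ^ (2 * B) * 2 ^ B := by positivity
    have h8 : 2 ^ (2 * B) * 2 ^ B * 2 ≤ 3 ^ (2 * B) * F^[i + t + 2 * B] m := Nat.mul_le_mul h6 h5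
    have h9 : 2 ^ (2 * B) * F^[i + t] m ≤ 2 ^ (2 * B) * 2 ^ B := Nat.mul_le_mul_left _ h4
    omega
  have hex : ∃ s, ¬ dd m (i + t + s) := by
    obtain ⟨s, _, hs⟩ := h11
    exact ⟨s, hs⟩
  classical
  obtain ⟨s0, hs0, hs0'⟩ := h11
  have hf1 := Nat.find_spec hex
  have hf2 : Nat.find hex ≤ s0 := Nat.find_min' hex hs0'
  have hf3 : Nat.find hex ≠ 0 := by
    intro h0
    rw [h0] at hf1
    exact hf1 hd
  refine ⟨i + t + (Nat.find hex - 1), by omega, by omega, ?_, ?_⟩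
  · have := Nat.find_min hex (m := Nat.find hex - 1) (by omega)
    exact not_not.1 this
  · have e : i + t + (Nat.find hex - 1) + 1 = i + t + Nat.find hex := by omega
    rw [e]
    exact hf1

end Pool.STN
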